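import Pool.Agent.W708.MZ.Basic
import Pool.Agent.W918.BU.JH1
import Pool.Agent.H306R2.ZetaGrowth

set_option autoImplicit false

namespace Pool.Agent.W708.MZ

open Complex

lemma zeta_half_le {t T : ℝ} (h0 : 0 < t) (h1 : t ≤ T) (hT : 1000 < T) :
    ‖riemannZeta (1 / 2 + t * I)‖ ≤ 8 * Real.sqrt T := by
  by_cases ht : 1 ≤ t
  · have h := Pool.Agent.W918.BU.zeta_half t ht
    rw [mul_comm I (t : ℂ)] at h
    refine h.trans ?_
    have := Real.sqrt_le_sqrt h1
    linarith
  · push Not at ht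
    have hs31 : (31 : ℝ) ≤ Real.sqrt T := by
      apply Real.le_sqrt_of_sq_le
      norm_num
      linarith
    have h := Pool.Agent.H306R2.zeta_norm_le (s := 1 / 2 + t * I) (by simp) (by
      have h1 : |(1 / 2 + t * I - 1 : ℂ).re| ≤ ‖(1 / 2 + t * I - 1 : ℂ)‖ := Complex.abs_re_le_norm _
      have h2 : |(1 / 2 + t * I - 1 : ℂ).re| = 1 / 2 := by
        simp
        norm_num
      linarith)
    have h3 : ‖(1 / 2 + t * I : ℂ)‖ ≤ 3 / 2 := by
      refine (norm_add_le _ _).trans ?_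
      rw [norm_mul, Complex.norm_real, Complex.norm_I, mul_one, Real.norm_of_nonneg h0.le]
      norm_num
      linarith
    have h4 : (‖(1 / 2 + t * I : ℂ)‖ + 1) ^ 2 ≤ (5 / 2) ^ 2 := by
      apply pow_le_pow_left₀ (by positivity)
      linarith
    calc _ ≤ 6 * (‖(1 / 2 + t * I : ℂ)‖ + 1) ^ 2 := h
      _ ≤ 6 * (5 / 2) ^ 2 := by linarith
      _ ≤ 8 * Real.sqrt T := by linarith

/-- explicit region -/
theorem expl {k T : ℝ} (hk : 7 ≤ k) (hT : 1000 < T) (hTk : T ≤ k ^ k) :
    M k T ≤ T * Real.log T ^ (k ^ 2) := by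
  have hk0 : 0 < k := by linarith
  refine M_le' hk0.le hT (B := 8 * Real.sqrt T) (by positivity)
    (fun t h0 h1 => zeta_half_le h0 h1 hT) ?_
  have hT0 : 0 < T := by linarith
  have h1 : 2 * Real.log (8 * Real.sqrt T) = Real.log 64 + Real.log T := by
    rw [Real.log_mul (by norm_num) (by positivity), Real.log_sqrt hT0.le]
    have : (64 : ℝ) = 8 ^ 2 := by norm_num
    rw [this, Real.log_pow]
    push_cast
    ring
  rw [h1]
  refine key hk ?_ ?_
  · exact six_le_log.trans (Real.log_le_log (by norm_num) hT.le)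
  · rw [← Real.log_rpow hk0]
    exact Real.log_le_log hT0 hTk

end Pool.Agent.W708.MZ
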