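import Pool.Agent.W708.MZ.Basic
import Pool.Agent.W22.EH.EX
import Pool.Agent.W903.EH.BK
import Pool.Agent.W347.EH.KT

set_option autoImplicit false

namespace Pool.Agent.W708.MZ

open Complex

theorem weyl : Pool.Agent.W186.EH.S_EX :=
  Pool.Agent.W22.EH.ex (Pool.Agent.W903.EH.bk Pool.Agent.W347.EH.kt) Pool.Agent.W903.EH.b1

/-- asymptotic region -/
theorem asym (ε : ℝ) (hε : 0 < ε) : ∃ K : ℝ, 2 ≤ K ∧ ∀ k : ℝ, K ≤ k → ∀ T : ℝ, 1000 < T →
    T ≤ k ^ ((3 - ε) * k) → M k T ≤ T * Real.log T ^ (k ^ 2) := by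
  by_cases hε3 : 3 ≤ ε
  · refine ⟨2, le_rfl, fun k hk T hT hTk => ?_⟩
    exfalso
    have h1 : k ^ ((3 - ε) * k) ≤ 1 := by
      apply Real.rpow_le_one_of_one_le_of_nonpos (by linarith)
      nlinarith
    linarith
  push Not at hε3
  set δ : ℝ := ε / 36 with hδ
  have hδ0 : 0 < δ := by positivity
  obtain ⟨T0, hT0⟩ := weyl δ hδ0
  set T1 : ℝ := max T0 1 with hT1
  obtain ⟨B0, hB0⟩ := zeta_line_bdd T1
  set B : ℝ := max B0 1 with hBdef
  have hB1 : 1 ≤ B := le_max_right _ _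
  have hlB : 0 ≤ Real.log B := Real.log_nonneg hB1
  refine ⟨max 2 (12 * Real.log B / ε), le_max_left _ _, fun k hk T hT hTk => ?_⟩
  have hk2 : 2 ≤ k := (le_max_left _ _).trans hk
  have hkB : 12 * Real.log B / ε ≤ k := (le_max_right _ _).trans hk
  have hk0 : 0 < k := by linarith
  have hTp : 0 < T := by linarith
  have hT1' : 1 ≤ T := by linarith
  have hθ0 : 0 ≤ 1 / 6 + δ := by positivity
  have hpow1 : 1 ≤ T ^ (1 / 6 + δ) := Real.one_le_rpow hT1' hθ0
  have hbound : ∀ t : ℝ, 0 < t → t ≤ T →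
      ‖riemannZeta (1 / 2 + t * I)‖ ≤ B * T ^ (1 / 6 + δ) := by
    intro t ht0 htT
    by_cases h : t ≤ T1
    · calc ‖riemannZeta (1 / 2 + t * I)‖ ≤ B0 := hB0 t ht0.le h
        _ ≤ B := le_max_left _ _
        _ = B * 1 := (mul_one _).symm
        _ ≤ B * T ^ (1 / 6 + δ) := by
          apply mul_le_mul_of_nonneg_left hpow1 (by linarith)
    · push Not at h
      have h0 : T0 ≤ t := (le_max_left _ _).trans h.le
      calc ‖riemannZeta (1 / 2 + t * I)‖ ≤ t ^ (1 / 6 + δ) := (hT0 t h0).1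
        _ ≤ T ^ (1 / 6 + δ) := Real.rpow_le_rpow ht0.le htT hθ0
        _ = 1 * T ^ (1 / 6 + δ) := (one_mul _).symm
        _ ≤ B * T ^ (1 / 6 + δ) := by
          apply mul_le_mul_of_nonneg_right hB1 (by linarith)
  refine M_le' hk0.le hT (B := B * T ^ (1 / 6 + δ)) (by positivity) hbound ?_
  rw [Real.log_mul (by positivity) (by positivity), Real.log_rpow hTp]
  set x := Real.log T with hx
  have hx6 : 6 ≤ x := six_le_log.trans (Real.log_le_log (by norm_num) hT.le)
  have hxk : x ≤ (3 - ε) * k * Real.log k := by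
    rw [hx, ← Real.log_rpow hk0]
    exact Real.log_le_log hTp hTk
  have hlx : (8 / 5 : ℝ) ≤ Real.log x := log_six.trans (Real.log_le_log (by norm_num) hx6)
  -- the constant
  have hc : 2 * Real.log B ≤ ε / 6 * (k * Real.log x) := by
    have h1 : 12 * Real.log B ≤ k * ε := by
      rw [div_le_iff₀ hε] at hkB; exact hkB
    have h2 : k * 1 ≤ k * Real.log x := by
      apply mul_le_mul_of_nonneg_left (by linarith) hk0.le
    nlinarith
  -- the main term
  have hm : 2 * ((1 / 6 + δ) * x) ≤ (1 - ε / 6) * (k * Real.log x) := by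
    by_cases hxc : x ≤ k
    · have h1 : 2 * ((1 / 6 + δ) * x) ≤ 1 / 2 * k := by
        have : 2 * (1 / 6 + δ) ≤ 1 / 2 := by rw [hδ]; linarith
        nlinarith
      have h2 : (1 / 2 : ℝ) * k ≤ (1 - ε / 6) * (k * Real.log x) := by
        have h3 : (1 / 2 : ℝ) ≤ 1 - ε / 6 := by linarith
        have h4 : k ≤ k * Real.log x := by nlinarith
        have h5 : 0 ≤ k * Real.log x := by linarith
        calc (1 / 2 : ℝ) * k ≤ 1 / 2 * (k * Real.log x) := by linarith
          _ ≤ (1 - ε / 6) * (k * Real.log x) := mul_le_mul_of_nonneg_right h3 h5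
      linarith
    · push Not at hxc
      have hlk : Real.log k ≤ Real.log x := Real.log_le_log hk0 hxc.le
      have hlk0 : 0 ≤ Real.log k := Real.log_nonneg (by linarith)
      have h1 : 2 * ((1 / 6 + δ) * x) ≤ 2 * (1 / 6 + δ) * ((3 - ε) * k * Real.log k) := by
        have : 0 ≤ 2 * (1 / 6 + δ) := by positivity
        nlinarith
      have h2 : 2 * (1 / 6 + δ) * (3 - ε) ≤ 1 - ε / 6 := by
        rw [hδ]; nlinarith
      have h3 : 2 * (1 / 6 + δ) * ((3 - ε) * k * Real.log k) ≤ (1 - ε / 6) * (k * Real.log k) := by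
        have h4 : 0 ≤ k * Real.log k := by positivity
        nlinarith
      have h5 : (1 - ε / 6) * (k * Real.log k) ≤ (1 - ε / 6) * (k * Real.log x) := by
        apply mul_le_mul_of_nonneg_left _ (by linarith)
        exact mul_le_mul_of_nonneg_left hlk hk0.le
      linarith
  linarith

end Pool.Agent.W708.MZ
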