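import Mathlib

set_option autoImplicit false

/-!
# Moments of zeta from a pointwise bound
-/

namespace Pool.Agent.W708.MZ

open Complex

/-- `∫_0^T |ζ(1/2+it)|^(2k) dt` -/
noncomputable def M (k T : ℝ) : ℝ :=
  ∫ t in (0 : ℝ)..T, ‖riemannZeta (1 / 2 + t * I)‖ ^ (2 * k)

/-- a bound for the moment from a bound for the maximum -/
lemma M_le {k T B : ℝ} (hk : 0 ≤ k) (hT : 0 ≤ T) (hB : 0 ≤ B)
    (h : ∀ t : ℝ, 0 < t → t ≤ T → ‖riemannZeta (1 / 2 + t * I)‖ ≤ B) :
    M k T ≤ T * B ^ (2 * k) := by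
  have h1 : ‖∫ t in (0 : ℝ)..T, ‖riemannZeta (1 / 2 + t * I)‖ ^ (2 * k)‖ ≤
      B ^ (2 * k) * |T - 0| := by
    apply intervalIntegral.norm_integral_le_of_norm_le_const
    intro x hx
    rw [Set.uIoc_of_le hT] at hx
    rw [Real.norm_of_nonneg (Real.rpow_nonneg (norm_nonneg _) _)]
    exact Real.rpow_le_rpow (norm_nonneg _) (h x hx.1 hx.2) (by linarith)
  rw [sub_zero, abs_of_nonneg hT] at h1
  unfold M
  calc _ ≤ ‖∫ t in (0 : ℝ)..T, ‖riemannZeta (1 / 2 + t * I)‖ ^ (2 * k)‖ := Real.le_norm_self _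
    _ ≤ B ^ (2 * k) * T := h1
    _ = T * B ^ (2 * k) := mul_comm _ _

/-- the comparison of logarithms gives the moment inequality -/
lemma M_le' {k T B : ℝ} (hk : 0 ≤ k) (hT : 1000 < T) (hB : 0 < B)
    (h : ∀ t : ℝ, 0 < t → t ≤ T → ‖riemannZeta (1 / 2 + t * I)‖ ≤ B)
    (hl : 2 * Real.log B ≤ k * Real.log (Real.log T)) :
    M k T ≤ T * Real.log T ^ (k ^ 2) := by
  refine (M_le hk (by linarith) hB.le h).trans ?_
  have hlT : 0 < Real.log T := Real.log_pos (by linarith)
  apply mul_le_mul_of_nonneg_left _ (by linarith)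
  rw [Real.rpow_def_of_pos hB, Real.rpow_def_of_pos hlT]
  apply Real.exp_le_exp.2
  nlinarith

lemma zeta_line_bdd (a : ℝ) : ∃ B : ℝ, ∀ t : ℝ, 0 ≤ t → t ≤ a →
    ‖riemannZeta (1 / 2 + t * I)‖ ≤ B := by
  have hc : Continuous (fun t : ℝ => riemannZeta (1 / 2 + t * I)) := by
    rw [continuous_iff_continuousAt]
    intro t
    have h1 : (1 / 2 + t * I : ℂ) ≠ 1 := by
      intro h
      have h2 := congrArg Complex.re h
      simp at h2
    have h3 : ContinuousAt (fun t : ℝ => (1 / 2 + t * I : ℂ)) t := by fun_prop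
    exact ContinuousAt.comp (g := riemannZeta) (differentiableAt_riemannZeta h1).continuousAt h3
  obtain ⟨B, hB⟩ := (isCompact_Icc (a := (0 : ℝ)) (b := a)).exists_bound_of_continuousOn
    hc.continuousOn
  exact ⟨B, fun t h0 h1 => hB t ⟨h0, h1⟩⟩

/-- numerical facts -/
lemma log_seven : (19 / 10 : ℝ) ≤ Real.log 7 := by
  rw [Real.le_log_iff_exp_le (by norm_num)]
  have h1 : Real.exp (19 / 10) ^ 10 ≤ (7 : ℝ) ^ 10 := by
    rw [← Real.exp_nat_mul]
    have h2 : ((10 : ℕ) : ℝ) * (19 / 10) = ((19 : ℕ) : ℝ) * 1 := by norm_num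
    rw [h2, Real.exp_nat_mul]
    have h3 := Real.exp_one_lt_d9
    calc Real.exp 1 ^ 19 ≤ (2.7182818286 : ℝ) ^ 19 := by
          apply pow_le_pow_left₀ (Real.exp_pos _).le h3.le
      _ ≤ 7 ^ 10 := by norm_num
  exact le_of_pow_le_pow_left₀ (by norm_num) (by norm_num) h1

lemma log_sixtyfour_le : Real.log 64 ≤ 7 * Real.log (19 / 10) := by
  have h : (7 : ℝ) * Real.log (19 / 10) = Real.log ((19 / 10) ^ 7) := by
    rw [Real.log_pow]; norm_num
  rw [h]
  exact Real.log_le_log (by norm_num) (by norm_num)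

lemma six_le_log : (6 : ℝ) ≤ Real.log 1000 := by
  rw [Real.le_log_iff_exp_le (by norm_num)]
  have h3 := Real.exp_one_lt_d9
  have : Real.exp 6 = Real.exp 1 ^ 6 := by
    rw [← Real.exp_nat_mul]; norm_num
  rw [this]
  calc Real.exp 1 ^ 6 ≤ (2.7182818286 : ℝ) ^ 6 := pow_le_pow_left₀ (Real.exp_pos _).le h3.le 6
    _ ≤ 1000 := by norm_num

lemma log_six : (8 / 5 : ℝ) ≤ Real.log 6 := by
  rw [Real.le_log_iff_exp_le (by norm_num)]
  have h1 : Real.exp (8 / 5) ^ 5 ≤ (6 : ℝ) ^ 5 := by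
    rw [← Real.exp_nat_mul]
    have h2 : ((5 : ℕ) : ℝ) * (8 / 5) = ((8 : ℕ) : ℝ) * 1 := by norm_num
    rw [h2, Real.exp_nat_mul]
    have h3 := Real.exp_one_lt_d9
    calc Real.exp 1 ^ 8 ≤ (2.7182818286 : ℝ) ^ 8 := by
          apply pow_le_pow_left₀ (Real.exp_pos _).le h3.le
      _ ≤ 6 ^ 5 := by norm_num
  exact le_of_pow_le_pow_left₀ (by norm_num) (by norm_num) h1

lemma log_sixtyfour_lt : Real.log 64 ≤ 42 / 10 := by
  have h : Real.log 64 = 6 * Real.log 2 := by
    have : (64 : ℝ) = 2 ^ 6 := by norm_num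
    rw [this, Real.log_pow]; norm_num
  rw [h]
  have := Real.log_two_lt_d9
  linarith

/-- the key inequality: `x + log 64 ≤ k log x` for `6 ≤ x ≤ k log k`, `k ≥ 7` -/
lemma key {k x : ℝ} (hk : 7 ≤ k) (hx : 6 ≤ x) (hxk : x ≤ k * Real.log k) :
    Real.log 64 + x ≤ k * Real.log x := by
  have hk0 : 0 < k := by linarith
  have hlk : (19 / 10 : ℝ) ≤ Real.log k :=
    log_seven.trans (Real.log_le_log (by norm_num) hk)
  by_cases hc : x ≤ k
  · have h1 : (8 / 5 : ℝ) ≤ Real.log x := log_six.trans (Real.log_le_log (by norm_num) hx)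
    have h2 := log_sixtyfour_lt
    nlinarith
  · push Not at hc
    -- `x = k y` with `1 < y ≤ log k`
    set y := x / k with hy
    have hxy : x = k * y := by rw [hy]; field_simp
    have hy1 : 1 < y := by rw [hy, lt_div_iff₀ hk0]; linarith
    have hy0 : 0 < y := by linarith
    have hyL : y ≤ Real.log k := by
      rw [hy, div_le_iff₀ hk0]; linarith
    have hL0 : 0 < Real.log k := by linarith
    have hlog : Real.log x = Real.log k + Real.log y := by
      rw [hxy, Real.log_mul hk0.ne' hy0.ne']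
    -- `log (L / y) ≤ L / y - 1 ≤ L - y`
    have h1 : Real.log (Real.log k) - Real.log y ≤ Real.log k - y := by
      rw [← Real.log_div hL0.ne' hy0.ne']
      have h2 := Real.log_le_sub_one_of_pos (x := Real.log k / y) (by positivity)
      have h3 : Real.log k / y - 1 ≤ Real.log k - y := by
        have h4 : Real.log k / y - 1 = (Real.log k - y) / y := by field_simp
        rw [h4]
        exact div_le_self (by linarith) hy1.le
      linarith
    have h5 : Real.log 64 ≤ k * Real.log (Real.log k) := by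
      have h6 : Real.log (19 / 10) ≤ Real.log (Real.log k) :=
        Real.log_le_log (by norm_num) hlk
      have h7 : 0 ≤ Real.log (19 / 10 : ℝ) := Real.log_nonneg (by norm_num)
      have h8 := log_sixtyfour_le
      nlinarith
    rw [hlog, hxy]
    nlinarith

end Pool.Agent.W708.MZ
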